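import Mathlib
import Pool.Agent.H33.TDU.All

/-!
The Havet-Yu conjecture (exact bound `Δ + 2p - 1`) for all `p ≥ 1` and all large dense graphs (maximum degree at
least `c n`, any `c > 0`; `n₀` depends only on `c`). The case `p = 1` is the Total Colouring Conjecture.
-/

set_option autoImplicit false

namespace Pool.Agent.Results.MP_b8729f_co.Dense

/-- A `(p,1)`-total labeling of `G` with labels in `{0, ..., Δ(G) + 2p - 1}`. -/
def HavetYu {V : Type} [Fintype V] (G : SimpleGraph V) [DecidableRel G.Adj] (p : ℕ) : Prop :=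
  ∃ (fV : V → ℕ) (fE : Sym2 V → ℕ),
    (∀ v : V, fV v ≤ G.maxDegree + 2 * p - 1) ∧
    (∀ e ∈ G.edgeSet, fE e ≤ G.maxDegree + 2 * p - 1) ∧
    (∀ u v : V, G.Adj u v → fV u ≠ fV v) ∧
    (∀ u v : V, G.Adj u v → (p : ℤ) ≤ |(fV u : ℤ) - (fE s(u, v) : ℤ)|) ∧
    (∀ u v w : V, G.Adj u v → G.Adj u w → v ≠ w → fE s(u, v) ≠ fE s(u, w))

theorem result :
    ∀ c : ℝ, 0 < c → ∃ n₀ : ℕ, ∀ (V : Type) [Fintype V] (G : SimpleGraph V)
      [DecidableRel G.Adj] (p : ℕ), n₀ ≤ Fintype.card V →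
      c * Fintype.card V ≤ (G.maxDegree : ℝ) → 1 ≤ p → HavetYu G p := by
  intro c hc
  obtain ⟨n0, h⟩ := H33.TDU.hyu_all c hc
  exact ⟨n0, fun V _ G _ p hn hΔ hp => h V G hn hΔ p hp⟩

end Pool.Agent.Results.MP_b8729f_co.Dense
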