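import Mathlib
import Pool.Agent.H71.MA.MnM

/-!
The Havet-Yu conjecture (exact bound `Δ + 2p - 1`, all `p ≥ 1`; for `p = 1` the Total Colouring
Conjecture) for all graphs of large maximum degree `Δ` whose subgraphs all have average degree at
most `Δ - Δ^(200/201)`.
-/

set_option autoImplicit false

namespace Pool.Agent.Results.MP_b8729f_co.Mad

open Finset

/-- A `(p,1)`-total labeling of `G` with labels in `{0, ..., Δ(G) + 2p - 1}`. -/
def HavetYu {V : Type} [Fintype V] (G : SimpleGraph V) [DecidableRel G.Adj] (p : ℕ) : Prop :=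
  ∃ (fV : V → ℕ) (fE : Sym2 V → ℕ),
    (∀ v : V, fV v ≤ G.maxDegree + 2 * p - 1) ∧
    (∀ e ∈ G.edgeSet, fE e ≤ G.maxDegree + 2 * p - 1) ∧
    (∀ u v : V, G.Adj u v → fV u ≠ fV v) ∧
    (∀ u v : V, G.Adj u v → (p : ℤ) ≤ |(fV u : ℤ) - (fE s(u, v) : ℤ)|) ∧
    (∀ u v w : V, G.Adj u v → G.Adj u w → v ≠ w → fE s(u, v) ≠ fE s(u, w))

/-- Every subgraph of `G` has average degree at most `d`: for every set `S` of vertices
`2 e(S) ≤ d |S|` (`G.interedges S S` contains every edge inside `S` twice). -/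
def MadLe {V : Type} [Fintype V] (G : SimpleGraph V) [DecidableRel G.Adj] (d : ℝ) : Prop :=
  ∀ S : Finset V, ((G.interedges S S).card : ℝ) ≤ d * S.card

/-- There is `D` such that every finite simple graph `G` with `Δ = Δ(G) ≥ D` and maximum average
degree at most `Δ - Δ^(200/201)` has, for every `p ≥ 1`, a `(p,1)`-total labeling with labels
in `{0, ..., Δ + 2p - 1}`. -/
theorem result : ∃ D : ℕ, ∀ (V : Type) [Fintype V] (G : SimpleGraph V) [DecidableRel G.Adj] (p : ℕ),
    D ≤ G.maxDegree → 1 ≤ p →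
    MadLe G ((G.maxDegree : ℝ) - (G.maxDegree : ℝ) ^ (200 / 201 : ℝ)) →
    HavetYu G p := by
  obtain ⟨D, h⟩ := H71.MA.mainM
  refine ⟨D, ?_⟩
  intro V _ G _ p hD hp hm
  refine h V G p hD hp ?_
  intro S
  have hee : H71.DN.ee G S S = (G.interedges S S).card := by
    unfold H71.DN.ee SimpleGraph.interedges Rel.interedges
    refine congrArg Finset.card ?_
    ext x
    simp only [mem_filter, mem_product]
  rw [hee]
  exact hm S

end Pool.Agent.Results.MP_b8729f_co.Mad
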