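import Mathlib
import Pool.Agent.H2.LN.Main

/-!
The Havet-Yu conjecture (exact bound `Δ + 2p - 1`; for `p = 1` the Total Colouring Conjecture) for
all finite graphs of large maximum degree `Δ`, of any order, in which every set of at most `Δ ^ 13`
vertices induces a subgraph of average degree at most `Δ - Δ ^ (1 - 1 / 40001)`, and for all
`1 ≤ p ≤ Δ ^ (1 / 40001)`. (By `Pool.Agent.H2.LN.girth_gap` all graphs of girth at least 29 and
large maximum degree satisfy the condition.)
-/

set_option autoImplicit false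

namespace Pool.Agent.Results.MP_b8729f_co.SmallSets

/-- A `(p,1)`-total labeling of `G` with labels in `{0, ..., Δ(G) + 2p - 1}`. -/
def HavetYu {V : Type} [Fintype V] (G : SimpleGraph V) [DecidableRel G.Adj] (p : ℕ) : Prop :=
  ∃ (fV : V → ℕ) (fE : Sym2 V → ℕ),
    (∀ v : V, fV v ≤ G.maxDegree + 2 * p - 1) ∧
    (∀ e ∈ G.edgeSet, fE e ≤ G.maxDegree + 2 * p - 1) ∧
    (∀ u v : V, G.Adj u v → fV u ≠ fV v) ∧
    (∀ u v : V, G.Adj u v → (p : ℤ) ≤ |(fV u : ℤ) - (fE s(u, v) : ℤ)|) ∧
    (∀ u v w : V, G.Adj u v → G.Adj u w → v ≠ w → fE s(u, v) ≠ fE s(u, w))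

/-- The sum of the degrees in the subgraph of `G` induced by `S` (twice the number of its edges). -/
def degSum {V : Type} (G : SimpleGraph V) [DecidableRel G.Adj] (S : Finset V) : ℕ :=
  ∑ v ∈ S, (S.filter (fun u => G.Adj v u)).card

/-- There is `D` such that every finite simple graph `G` of maximum degree `Δ ≥ D`, in which every
set `S` of at most `Δ ^ 13` vertices induces a subgraph of average degree at most
`Δ - Δ ^ (1 - 1 / 40001)`, has for every `p` with `1 ≤ p ≤ Δ ^ (1 / 40001)` a `(p,1)`-total labeling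
with labels in `{0, ..., Δ + 2p - 1}`. -/
theorem result : ∃ D : ℕ, ∀ (V : Type) [Fintype V] (G : SimpleGraph V) [DecidableRel G.Adj],
    D ≤ G.maxDegree →
    (∀ S : Finset V, S.card ≤ G.maxDegree ^ 13 → (degSum G S : ℝ) ≤
        ((G.maxDegree : ℝ) - (G.maxDegree : ℝ) ^ (1 - 1 / 40001 : ℝ)) * S.card) →
    ∀ p : ℕ, 1 ≤ p → (p : ℝ) ≤ (G.maxDegree : ℝ) ^ (1 / 40001 : ℝ) → HavetYu G p := by
  obtain ⟨D1, h1⟩ := Pool.Agent.H2.LN.main_final
  refine ⟨D1, ?_⟩
  intro V _ G _ hD hS p hp1 hp2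
  refine h1 V G G.maxDegree hD ?_ ?_ p hp1 hp2
  · intro v
    have h1 := G.degree_le_maxDegree v
    rw [← SimpleGraph.card_neighborFinset_eq_degree, SimpleGraph.neighborFinset_eq_filter] at h1
    convert h1 using 2
    ext u
    simp
  · intro S hc
    refine le_trans (le_of_eq ?_) (hS S hc)
    unfold Pool.Agent.H2.LN.ee degSum
    congr 1
    refine Finset.sum_congr rfl (fun v _ => ?_)
    congr! 2

end Pool.Agent.Results.MP_b8729f_co.SmallSets
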