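import Mathlib
import Pool.Agent.H2.HV.FIN

/-!
The Havet-Yu conjecture (exact bound `Δ + 2p - 1`) for all graphs and all
`p ≥ C Δ^(3/4) (log Δ)^(1/4)`.
-/

set_option autoImplicit false

namespace Pool.Agent.Results.MP_b8729f_co.SublinearP

/-- There is an absolute constant `C` such that every finite simple graph `G` of maximum degree
`Δ ≥ 2` satisfies the Havet-Yu bound `λ_p^T(G) ≤ Δ + 2p - 1` for all
`p ≥ C Δ^(3/4) (log Δ)^(1/4)`. -/
theorem result :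
    ∃ C : ℝ, 0 < C ∧
      ∀ (V : Type) [Fintype V] (G : SimpleGraph V) [DecidableRel G.Adj] (p : ℕ),
        2 ≤ G.maxDegree →
        C * (G.maxDegree : ℝ) ^ (3 / 4 : ℝ) * (Real.log G.maxDegree) ^ (1 / 4 : ℝ) ≤ (p : ℝ) →
        ∃ (fV : V → ℕ) (fE : Sym2 V → ℕ),
          (∀ v : V, fV v ≤ G.maxDegree + 2 * p - 1) ∧
          (∀ e ∈ G.edgeSet, fE e ≤ G.maxDegree + 2 * p - 1) ∧
          (∀ u v : V, G.Adj u v → fV u ≠ fV v) ∧
          (∀ u v : V, G.Adj u v → (p : ℤ) ≤ |(fV u : ℤ) - (fE s(u, v) : ℤ)|) ∧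
          (∀ u v w : V, G.Adj u v → G.Adj u w → v ≠ w → fE s(u, v) ≠ fE s(u, w)) :=
  Pool.Agent.H2.HV.main_hv

end Pool.Agent.Results.MP_b8729f_co.SublinearP
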